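import Pool.Agent.Lib.MP_b6f35e_al.KA.Main

/-!
# The Farrell-Jones assembly map in all degrees: the part given by homology and units

Let `R` be a commutative domain of characteristic zero, `G` a group, `n ≥ 1`. Rationally the source of
the assembly map in degree `n + 1` (for the family of finite subgroups) contains the summand
`H_n^G(E_Fin G; K_1(R[-]))`, which is the tensor product `TGrp n R G` of the functors `H_n(Z_G(C))` and
`R[C]ˣ` over the finite cyclic subgroups `C` of `G`. The assembly map sends the class of `(C, z, u)` to
the cross product of `[u]` and the cycle `z`. The theorem says that this map is well defined, with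
values in `KH (n + 1) (R[G])`, the group of the cycles of the groups `GL_m(R[G])` modulo boundaries and
block diagonal sums, whose tensor product with the rational numbers is the one of `K_(n+1)(R[G])`; and
it describes the elements whose image has finite order modulo the images of the `KH (n + 1) (R[H])`,
`H` a finite subgroup of `G`: for infinitely many primes `p` a multiple of such an element comes from
cycles `z` which are killed by all homomorphisms from `H_n(Z_G(C))` to the integers localised at `p`.
In particular such an element has finite order if the groups `H_n(Z_G(C))` are finitely generated.
-/

set_option autoImplicit false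

namespace Pool.Agent.Results.MP_b6f35e_al.AllDegreesInjective

open Pool.Agent.Lib.MPb6f35e Pool.Agent.Lib.MPb6f35e.KA

universe u v

/-- Let `R` be a commutative domain of characteristic zero, let `G` be a group and `n ≥ 1`. If `n ≥ 2`
let there be only finitely many primes which are orders of elements of `G`.

There is a homomorphism `κ` from the tensor product `TGrp n R G` to `KH (n + 1) (R[G])` which maps
`(C, z, u)` to the class of the cross product of `[u]` and `z` (`IsKap`). Let `x` be an element of the
tensor product such that a positive multiple of `κ x` is in the subgroup generated by the images of
the `KH (n + 1) (R[H])`, `H` a finite subgroup of `G`. Then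

* for infinitely many primes `p` a positive multiple of `x` is in the subgroup generated by the
  `(C, z, u)` such that `z` is killed by all homomorphisms from the `n`-th homology group of `Z_G(C)`
  to the rational numbers with denominator prime to `p`;
* if for every finite cyclic subgroup `C` of `G` and all large primes `p` all such `z` have finite
  order in the `n`-th homology group of `Z_G(C)`, then `x` has finite order;
* if for every finite cyclic subgroup `C` of `G` the `n`-th homology group of `Z_G(C)` is finitely
  generated, then `x` has finite order. -/
theorem result (n : ℕ) (hn : 0 < n) (R : Type u) [CommRing R] [IsDomain R] [CharZero R]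
    (G : Type v) [Group G] (hG : n = 1 ∨ FewPrimes G) :
    ∃ κ : TGrp n R G →+ KH (n + 1) (MonoidAlgebra R G), IsKap n κ ∧
      ∀ (x : TGrp n R G) (k : ℕ), 0 < k → k • κ x ∈ FinPart (n + 1) R G →
        (∀ M : ℕ, ∃ p, M < p ∧ p.Prime ∧ ∃ k' : ℕ, 0 < k' ∧ k' • x ∈ DSub n R G p) ∧
        (NoHidden n G → IsOfFinAddOrder x) ∧ (CentFG n G → IsOfFinAddOrder x) :=
  KA.main n hn R G hG

end Pool.Agent.Results.MP_b6f35e_al.AllDegreesInjective
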