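import Pool.Agent.Lib.MP_b6f35e_al.D1.Main

/-!
# Rational injectivity of the Farrell-Jones assembly map in degree one, for every group

Let `R` be a commutative domain with `R/(a)` finite for all `a ≠ 0`: a field, `ℤ`, a ring of
`S`-integers of a global field. For every group `G` the map from the direct sum of `G_ab` and the
colimit of the `K_1(R[H])`, `H` the finite subgroups of `G`, to `K_1(R[G])` has torsion kernel. For
`R = ℤ` this says that `colim Wh(H) ⊗ ℚ → Wh(G) ⊗ ℚ` is injective. For a field of characteristic zero
we add the second summand of the source of the assembly map in degree one, the tensor product of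
`Z_G(H)_ab` and `K_0(R[H])` over the finite subgroups: the assembly map of the Farrell-Jones
conjecture is rationally injective in degree one, for every group.
-/

set_option autoImplicit false

namespace Pool.Agent.Results.MP_b6f35e_al.DegreeOneInjective

open Pool.Agent.Lib.MPb6f35e.D1

universe u v

/-- Let `R` be a commutative domain with `R/(a)` finite for all `a ≠ 0` and let `G` be a group.

If `g` is an element of `G` and `x` an element of the colimit of the `K_1(R[H])` over the finite
subgroups `H` of `G` such that the sum of the class of `g` and the image of `x` in `K_1(R[G])` has
finite order, then `g` has finite order in the abelianization of `G` and `x` has finite order.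

If `R` is a field of characteristic zero, `x` is an element of the colimit, `y` an element of the
tensor product of `Z_G(H)_ab` and `K_0(R[H])` over the finite subgroups `H`, and the sum of the
images of `x` and `y` in `K_1(R[G])` has finite order, then `x` and `y` have finite order. -/
theorem result (R : Type u) [CommRing R] [IsDomain R]
    (hR : ∀ a : R, a ≠ 0 → Finite (R ⧸ Ideal.span {a})) (G : Type v) [Group G] :
    (∀ (g : G) (x : ColimK R G), IsOfFinAddOrder (clsG R g + asmK R G x) →
      IsOfFinOrder (Abelianization.of g) ∧ IsOfFinAddOrder x) ∧
    (IsField R → CharZero R → ∀ (x : ColimK R G) (y : TensorK R G),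
      IsOfFinAddOrder (asmK R G x + asmS R G y) → IsOfFinAddOrder x ∧ IsOfFinAddOrder y) :=
  main R hR G

end Pool.Agent.Results.MP_b6f35e_al.DegreeOneInjective
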