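import Pool.Agent.Lib.MP_b6f35e_al.TT.AR.DTP
import Pool.Agent.Lib.MP_b6f35e_al.TT.AR.BRG
import Pool.Agent.Lib.MP_b6f35e_al.TT.AR.DI3

/-!
# The unitary nilpotent forms of an action on a tree come from groups over the infinite dihedral group

`G` is any group (elements of finite order are allowed) which acts on a tree `T`; `v`, `w` are adjacent
vertices, and `H` is the stabilizer of the edge `(v, w)`, which is not inverted. `R` is any ring with
involution, and `R[G]` has the involution `(∑ r_g g)^* = ∑ r_g^* g⁻¹` (`star`, see `TT/UV/Defs.lean`); `ᴴ` is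
the conjugate transpose. `X`, `Y`, `B_0` are the sets of the elements which fix `v` and move `w`, which fix
`w` and move `v`, and which map `v` to `w`. (For a generalized free product `G = G_v *_H G_w` acting on its
tree, `B_0` is empty; for an HNN extension `v` and `w` are in the same orbit.)

`UF ψ μ χ` is the `ε`-quadratic form `(ψ, 1 + μ^*; 0, χ)` on `R[G]^n ⊕ R[G]^n`, where the entries of
`ψ`, `μ`, `χ` are supported on `X`, `B_0`, `Y`, and `nu ε a μ b = (μ, ε b; a, μ^*)`, with
`a = ψ + ε ψ^*`, `b = χ + ε χ^*`, so that the polarization `UF + ε UF^*` is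
`(0, 1; ε, 0) (1 + nu ε a μ b)`. These forms with `nu ε a μ b` nilpotent are the forms of Cappell's
group `UNil_i(R[H]; R[X], R[Y])`, `i` even, `ε = (-1) ^ (i / 2)`: the obstruction to the Mayer-Vietoris
sequence of the `L`-groups of `R[G]`, `R[G_v]`, `R[G_w]`, `R[H]`. (The case of odd `i` is the case of even `i` for
the ring `R[z, z⁻¹]`, `z^* = z⁻¹`, in the place of `R`, and the same action.)

ADMISSIBLE SEQUENCES (`Adm`): vertices `x_j`, `y_j` and elements `u_j`, `j ≥ 0`, with `x_0 = v`, `y_0 = w`; the
path from `x_{j+1}` to `y_{j+1}` contains `x_j`, `y_j` in this order, and is longer than the one from `x_j`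
to `y_j`; and for `j ≥ 1`, with `K_j = G_{x_j} ∩ G_{y_j}` and `F_j = K_j u_j`: `u_j` exchanges `x_j` and
`y_j`, `x_{j+1} = x_j` or `y_{j+1} = y_j`, and `u_{j+2}` is in `F_j`. So `K_0 = H`, and the `K_j` decrease.

BAD SEQUENCES (`Bad`). A group `K` is good (`Good R K`) if `R[K]` is regular coherent of finite dimension, that
is (`DG.RC`, `MP_8a3537_gt/DG/Defs.lean`): `R[K]` is coherent (`coh`: the kernels of all matrices are finitely
generated), every finitely presented module has a finite free resolution (`ffr`), and `Ext^i(M, R[K]) = 0` for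
`i > d` and all finitely presented `M` (`injdim`), for some `d`. For instance `R = ℤ`, or a field, and `K` is free,
poly-infinite-cyclic, or a finite tower of amalgams and HNN extensions of such groups along
poly-infinite-cyclic groups (`MP_8a3537_gt/CT`). An admissible sequence is bad if there is no `j ≥ 1` such that
`K_{j+1}` is good and `F_j`, `F_{j+1}` contain no element `a` with `a² = 1`. For every bad admissible
sequence an index `i = c x y u ≥ 1` is chosen.

THE GENERATORS (`Gen`) are the following nilpotent forms `UF ψ 0 χ` of groups over the infinite dihedral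
group `D_∞`.

(1) The images of the forms `UF ψ' 0 χ'` over the group ring `R[E]` of the amalgam
`E = ⟨K_i, u_i⟩ *_{K_{i+1}} ⟨K_{i+1}, u_{i+1}⟩` (`AmE`) under `E → G` (`toE`), for the bad admissible sequences and
`i = c x y u`; here `ψ'` is supported on `F_i` in the first factor, `χ'` is supported on `F_{i+1}` in the second
factor, and `nu ε (ψ' + ε ψ'^*) 0 (χ' + ε χ'^*)` is nilpotent (`LiftE`, see `TT/AR/DTD.lean`). Since `K_i`, `K_{i+1}` are normal
subgroups of index two in the factors, `E` has a homomorphism onto `D_∞` (`K_i ↦ 1`, the `u`'s to the two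
generating reflections). If `K_{i+1} = K_i` then `E → G` is injective: `E` is the subgroup
`⟨K_i, u_i, u_{i+1}⟩` of `G`, an extension of `D_∞` by `K_i`. For instance if `H` is finite, or if there are no
infinite strictly decreasing chains of stabilizers `G_x ∩ G_y` of paths, `i` can be chosen so that
`K_{i+1} = K_i`; for finite `H` the groups `E` are then virtually cyclic subgroups of `G`, as the conjecture
predicts. If `G` has no elements of order two and `K_{j+1}` is good for some `j ≥ 1` in every admissible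
sequence then there are no generators, and all the forms are stably hyperbolic (`UNil = 0`).

(2) The forms `(r t, 1; 0, s u)` with `r`, `s` in `R`, `r = -ε r^*`, `s = -ε s^*`, and `t`, `u` in `G`, `t² = u² = 1`,
`t u` of infinite order, so that the subgroup `⟨t, u⟩` of `G` is infinite dihedral. Here
`a = r t + ε (r t)^* = 0`, `b = 0`.

The conclusion `SGen (Gen R T v w c ε) ε (UF ψ μ χ)` (`AR/GEN.lean`) says: for some `m` the form
`UF ψ μ χ ⊕ h_m`, `h = (0, 1; 0, 0)`, is isometric (`u^* Φ u + Z - ε Z^*`, `u` invertible) to an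
orthogonal sum (`FSum`) of hyperbolic forms `h_l` and of generators.

Idea of the proof. The set of the forms which satisfy the conclusion is closed under isometries, sums
and cancellation of hyperbolic forms. If it contains a form with an invertible polarization then it
contains all forms with the same polarization which come up in the proof, by the generators (2): the
difference is a sum of forms `(τ, 1; 0, τ')` with `τ = -ε τ^*`, `τ' = -ε τ'^*`, and these are sums of forms
(2) and hyperbolic forms. So elements of order two are no obstacle for the elimination of the elements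
`g` with `g² ∉ H` (Newton iteration), and for the elimination of the double cosets `H g H` with `g² ∈ H`, one
after the other, in exchange for forms over the subgroups `K = H ∩ g H g⁻¹`, where `g` exchanges the ends
of a longer path. Every chain of such eliminations is part of an admissible sequence.
-/

namespace Pool.Agent.Results.MP_b6f35e_al.LTheoryTrees

open Matrix Pool.Agent.Lib.MPb6f35e.TT Pool.Agent.Lib.MPb6f35e.TT.UV

-- a second copy of the same instance, which is used only inside of the proof
attribute [-instance] Pool.Agent.Lib.MP8a3537.UV.instStarMA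

/-- The stabilizer of the two vertices `x`, `y`. -/
abbrev St (G : Type) {V : Type} [Group G] [MulAction G V] (x y : V) : Subgroup G :=
  MulAction.stabilizer G x ⊓ MulAction.stabilizer G y

/-- Admissible sequences. -/
structure Adm {G V : Type} [Group G] [MulAction G V] (T : SimpleGraph V) (v w : V) (x y : ℕ → V)
    (u : ℕ → G) : Prop where
  x0 : x 0 = v
  y0 : y 0 = w
  path : ∀ i, T.dist (x (i + 1)) (y (i + 1)) =
    T.dist (x (i + 1)) (x i) + T.dist (x i) (y i) + T.dist (y i) (y (i + 1))
  grow : ∀ i, T.dist (x i) (y i) < T.dist (x (i + 1)) (y (i + 1))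
  exch : ∀ i, 1 ≤ i → u i • x i = y i ∧ u i • y i = x i
  one : ∀ i, 1 ≤ i → x (i + 1) = x i ∨ y (i + 1) = y i
  rep : ∀ i, 1 ≤ i → ∃ k ∈ St G (x i) (y i), u (i + 2) = k * u i

/-- The group `K` is good for the ring `R`: the group ring `R[K]` is regular coherent of finite dimension. -/
def Good (R : Type) [Ring R] [StarRing R] (K : Type) [Group K] : Prop :=
  ∃ d : ℕ, Pool.Agent.Lib.MP8a3537.DG.RC (MonoidAlgebra R K) d

/-- There is no `j ≥ 1` such that the stabilizer `K_{j+1}` is good and the sets `K_j u_j` and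
`K_{j+1} u_{j+1}` contain no element `a` with `a² = 1`. -/
def Bad (R G : Type) {V : Type} [Ring R] [StarRing R] [Group G] [MulAction G V] (x y : ℕ → V)
    (u : ℕ → G) : Prop :=
  ∀ j, 1 ≤ j → Good R ↥(St G (x (j + 1)) (y (j + 1))) →
    ∃ a, ((∃ k ∈ St G (x j) (y j), a = k * u j) ∨
      ∃ k ∈ St G (x (j + 1)) (y (j + 1)), a = k * u (j + 1)) ∧ a * a = 1

/-- The generators: (1) the images of the nilpotent forms `UF ψ' 0 χ'` over the group ring of the amalgam
`⟨K_i, u_i⟩ *_{K_{i+1}} ⟨K_{i+1}, u_{i+1}⟩` with supports in `K_i u_i` and `K_{i+1} u_{i+1}`, for the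
bad admissible sequences, and `i = c x y u` (the homomorphism from the amalgam to `G` is injective if
`K_i = K_{i+1}`); (2) the forms `(r t, 1; 0, s u)` of size `1 + 1`, `t² = u² = 1`, `t u` of
infinite order, `r = -ε r^*`, `s = -ε s^*`. -/
def Gen (R : Type) {G V : Type} [Ring R] [StarRing R] [Group G] [MulAction G V]
    (T : SimpleGraph V) (v w : V) (c : (ℕ → V) → (ℕ → V) → (ℕ → G) → ℕ) (ε : ℤˣ) (n : ℕ)
    (ψ χ : Matrix (Fin n) (Fin n) (MonoidAlgebra R G)) : Prop :=
  (∃ (x y : ℕ → V) (u : ℕ → G) (i : ℕ) (hle : St G (x (i + 1)) (y (i + 1)) ≤ St G (x i) (y i)),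
    Adm T v w x y u ∧ Bad R G x y u ∧ i = c x y u ∧
    (St G (x i) (y i) ≤ St G (x (i + 1)) (y (i + 1)) → Function.Injective
      (AR.toE (St G (x i) (y i)) (St G (x (i + 1)) (y (i + 1))) hle (u i) (u (i + 1)))) ∧
    AR.LiftE (St G (x i) (y i)) (St G (x (i + 1)) (y (i + 1))) hle (u i) (u (i + 1)) ε n ψ χ) ∨
  ∃ (r s : R) (t u : G), n = 1 ∧ t * t = 1 ∧ u * u = 1 ∧ (∀ k : ℕ, 1 ≤ k → (t * u) ^ k ≠ 1) ∧
    r + (ε : ℤ) • star r = 0 ∧ s + (ε : ℤ) • star s = 0 ∧
    (∀ i j, ψ i j = MonoidAlgebra.single t r) ∧ ∀ i j, χ i j = MonoidAlgebra.single u s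

/-- **Theorem.** Let `R` be a ring with involution, and let the group `G` act on a tree `T`. Let `v`, `w` be
adjacent vertices which are not exchanged by an element of `G`. Let an index `i = c x y u ≥ 1` be chosen
for every bad admissible sequence. Then every unitary nilpotent form of the edge is, up to a hyperbolic
form, isometric to an orthogonal sum of hyperbolic forms, of images of unitary nilpotent forms over the
group rings of the amalgams `⟨K_i, u_i⟩ *_{K_{i+1}} ⟨K_{i+1}, u_{i+1}⟩`, and of forms `(r t, 1; 0, s u)` of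
infinite dihedral subgroups `⟨t, u⟩` of `G`. -/
theorem result (R G V : Type) [Ring R] [StarRing R] [Group G] [MulAction G V]
    (T : SimpleGraph V) (v w : V) (hT : T.IsTree)
    (hact : ∀ (g : G) (x y : V), T.Adj x y → T.Adj (g • x) (g • y)) (hvw : T.Adj v w)
    (hinv : ∀ g : G, ¬ (g • v = w ∧ g • w = v))
    (c : (ℕ → V) → (ℕ → V) → (ℕ → G) → ℕ)
    (hc : ∀ (x y : ℕ → V) (u : ℕ → G), Adm T v w x y u → Bad R G x y u → 1 ≤ c x y u)
    (ε : ℤˣ) (n : ℕ) (ψ μ χ : Matrix (Fin n) (Fin n) (MonoidAlgebra R G))
    (hψ : SuppIn {g | g • v = v ∧ g • w ≠ w} ψ) (hμ : SuppIn {g | g • v = w} μ)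
    (hχ : SuppIn {g | g • w = w ∧ g • v ≠ v} χ)
    (hnil : IsNilpotent (nu ε (ψ + (ε : ℤ) • ψᴴ) μ (χ + (ε : ℤ) • χᴴ))) :
    AR.SGen (Gen R T v w c ε) ε (UF ψ μ χ) := by
  classical
  have hd : ROK.TM G (V := V) T.dist := ROK.specFPT G V T hT hact
  -- the translation of `Bad`
  have hb : ∀ (x y : ℕ → V) (u : ℕ → G), (∀ j, 1 ≤ j → ¬ AR.GoodAt R G
      (fun K : Subgroup G => Good R ↥K) x y u j) → Bad R G x y u := by
    intro x y u h j hj hg
    by_contra hne
    push Not at hne
    exact h j hj ⟨hg, fun k hk => hne _ (Or.inl ⟨k, hk, rfl⟩), fun k hk => hne _ (Or.inr ⟨k, hk, rfl⟩)⟩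
  refine AR.sgen_mono ?_ (AR.tDP R G V (fun K : Subgroup G => Good R ↥K) T v w hT hact hvw hinv c ?_
    ?_ ε n ψ μ χ hψ hμ hχ hnil)
  · rintro m ψ χ (⟨x, y, u, i, hle, hA, hbad, hi, hL⟩ | h)
    · have hA' : Adm T v w x y u := ⟨hA.x0, hA.y0, hA.path, hA.grow, hA.exch, hA.one, hA.rep⟩
      exact Or.inl ⟨x, y, u, i, hle, hA', hb x y u hbad, hi,
        fun hge => AR.injE_admT hd hA i (hi ▸ hc x y u hA' (hb x y u hbad)) hle hge, hL⟩
    · right
      cases h with
      | mk r s t u h1 h2 h3 h4 h5 =>
        exact ⟨r, s, t, u, rfl, h1, h2, h3, h4, h5, fun _ _ => rfl, fun _ _ => rfl⟩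
  · intro x y u h hbad
    exact hc x y u ⟨h.x0, h.y0, h.path, h.grow, h.exch, h.one, h.rep⟩ (hb x y u hbad)
  · intro x y u i hA hi hg ε' m ψ' χ' hs1 hs2 hn
    refine AR.lppT R G V T v w hT hact x y u hA i hi ?_ ?_ hg.1 ε' m ψ' χ' hs1 hs2 hn
    · rintro a ⟨k, hk, rfl⟩
      exact hg.2.1 k hk
    · rintro a ⟨k, hk, rfl⟩
      exact hg.2.2 k hk

end Pool.Agent.Results.MP_b6f35e_al.LTheoryTrees
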