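import Pool.Agent.Lib.MP_b6f35e_al.KN.MainL

/-!
# The Farrell-Jones conjecture in degrees at most one for groups acting on trees

`WhTrivial R X`: for all `m` the group `K_1(R[X × ℤ^m])` is generated by the images of `K_1(R[ℤ^m])` and
of the group `X × ℤ^m`. For `R = ℤ` this says `Wh(X × ℤ^m) = 0` for all `m`; if `X` is torsionfree this
is the Farrell-Jones conjecture in degree one for the groups `X × ℤ^m`, and it implies the conjecture
for `X` in all degrees `≤ 1`, with the coefficient ring `ℤ`.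

Let `G` act on a tree such that all edges are translates of one edge `{v, w}` and no element exchanges `v`
and `w`: `G` is an amalgamated product or an HNN extension. The theorem deduces `WhTrivial R G` from
the same property of `G_v`, `G_w` and of the groups `⟨K, g⟩`, `K` the stabilizer of a path and `g` an
element which moves the path along a line and satisfies `g⁻¹ K g ⊆ K`, from the vanishing of `K_0`
(modulo free modules) of the rings `R[(G_v ∩ G_w) × ℤ^m]`, and from a chain condition.
-/

set_option autoImplicit false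

namespace Pool.Agent.Results.MP_b6f35e_al.TreeActions

open Pool.Agent.Lib.MPb6f35e (D1.Grp D1.RelA D1.cls)
open Pool.Agent.Lib.MPb6f35e

/-- The group `ℤ^m`. -/
abbrev Z (m : ℕ) : Type := Multiplicative (Fin m → ℤ)

/-- `M` has a resolution of length `n` by finitely generated projective modules. -/
def FPres (S : Type) [Ring S] : ℕ → ∀ (M : Type) [AddCommGroup M] [Module S M], Prop
  | 0, M, _, _ => Module.Finite S M ∧ Module.Projective S M
  | n + 1, M, _, _ => ∃ (F : Type) (_ : AddCommGroup F) (_ : Module S F) (f : F →ₗ[S] M),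
      Module.Finite S F ∧ Module.Projective S F ∧ Function.Surjective f ∧
      FPres S n (LinearMap.ker f)

/-- `S` is regular coherent: every finitely presented (left) `S`-module has a finite resolution by
finitely generated projective modules. -/
def RegularCoherent (S : Type) [Ring S] : Prop :=
  ∀ (M : Type) [AddCommGroup M] [Module S M], Module.FinitePresentation S M → ∃ n, FPres S n M

/-- The idempotent matrix `p` over `S` is stably free: the image of `p ⊕ 1_r` is free of rank `s`. -/
def StablyFree {S : Type} [Ring S] {ι : Type} [Fintype ι] [DecidableEq ι] (p : Matrix ι ι S) : Prop :=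
  ∃ (r s : ℕ) (x : Matrix (ι ⊕ Fin r) (Fin s) S) (y : Matrix (Fin s) (ι ⊕ Fin r) S),
    x * y = Matrix.fromBlocks p 0 0 1 ∧ y * x = 1

/-- For all `m` all idempotent matrices over `R[X × ℤ^m]` are stably free. -/
def K0Trivial (R X : Type) [Ring R] [Group X] : Prop :=
  ∀ (m : ℕ) (ι : Type) [Fintype ι] [DecidableEq ι] (p : Matrix ι ι (MonoidAlgebra R (X × Z m))),
    p * p = p → StablyFree p

/-- The group `K_1(A)`: generators are the invertible matrices over `A`, relations are
`[a b] = [a] + [b]` and `[c] = [a] + [b]` for `c = (a x; 0 b)`. -/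
def K1 (A : Type) [Ring A] : Type := D1.Grp (D1.RelA A)

noncomputable instance (A : Type) [Ring A] : AddCommGroup (K1 A) :=
  inferInstanceAs (AddCommGroup (D1.Grp (D1.RelA A)))

/-- The class of an invertible matrix. -/
noncomputable def cl {A : Type} [Ring A] (n : ℕ) (u : (Matrix (Fin n) (Fin n) A)ˣ) : K1 A :=
  D1.cls (D1.RelA A) ⟨n, u⟩

/-- `K_1(A)` is generated by the classes of the invertible matrices with entries in `P` and of the
invertible `1 × 1` matrices with entry in `Q`. -/
def GenBy (A : Type) [Ring A] (P Q : Set A) : Prop :=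
  AddSubgroup.closure
    ({c : K1 A | ∃ (n : ℕ) (u : (Matrix (Fin n) (Fin n) A)ˣ), (∀ i j, u.val i j ∈ P) ∧ c = cl n u} ∪
      {c | ∃ u : (Matrix (Fin 1) (Fin 1) A)ˣ, u.val 0 0 ∈ Q ∧ c = cl 1 u}) = ⊤

/-- For all `m` the group `K_1(R[X × ℤ^m])` is generated by the classes of the invertible matrices
over `R[ℤ^m]` and of the elements of `X × ℤ^m`. -/
def WhTrivial (R X : Type) [Ring R] [Group X] : Prop :=
  ∀ m : ℕ, GenBy (MonoidAlgebra R (X × Z m)) {a | ∀ g, a.coeff g ≠ 0 → g.1 = 1}
    {a | ∃ g, a = MonoidAlgebra.single g 1}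

/-- The ring `R[X × ℤ^m]` is regular coherent. -/
def Regular (R X : Type) [Ring R] [Group X] (m : ℕ) : Prop :=
  RegularCoherent (MonoidAlgebra R (X × Z m))

/-- The elements which fix `x` and `y`, that is, the path from `x` to `y`. -/
abbrev Fix (G : Type) {V : Type} [Group G] [MulAction G V] (x y : V) : Subgroup G :=
  MulAction.stabilizer G x ⊓ MulAction.stabilizer G y

/-- The subgroup generated by `K` and `g`. -/
def Gen {G : Type} [Group G] (K : Subgroup G) (g : G) : Subgroup G :=
  Subgroup.closure ((K : Set G) ∪ {g})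

theorem fpres_iff (S : Type) [Ring S] : ∀ (n : ℕ) (M : Type) [AddCommGroup M] [Module S M],
    FPres S n M ↔ KN.FPres S n M
  | 0, _, _, _ => Iff.rfl
  | n + 1, M, _, _ => by
    constructor
    · rintro ⟨F, i1, i2, f, h1, h2, h3, h4⟩
      exact ⟨F, i1, i2, f, h1, h2, h3, (fpres_iff S n _).1 h4⟩
    · rintro ⟨F, i1, i2, f, h1, h2, h3, h4⟩
      exact ⟨F, i1, i2, f, h1, h2, h3, (fpres_iff S n _).2 h4⟩

theorem regCoh_of (S : Type) [Ring S] (h : RegularCoherent S) : KN.RegCoh S := by
  intro M _ _ hM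
  obtain ⟨n, hn⟩ := h M hM
  exact ⟨n, (fpres_iff S n M).1 hn⟩

theorem wh_iff (R X : Type) [Ring R] [Group X] : WhTrivial R X ↔ KN.WhR R X := by
  refine forall_congr' fun m => ?_
  have e : ({c : K1 (MonoidAlgebra R (X × Z m)) |
      ∃ (n : ℕ) (u : (Matrix (Fin n) (Fin n) (MonoidAlgebra R (X × Z m)))ˣ),
        (∀ i j, u.val i j ∈ {a : MonoidAlgebra R (X × Z m) | ∀ g, a.coeff g ≠ 0 → g.1 = 1}) ∧
          c = cl n u} ∪
      {c | ∃ u : (Matrix (Fin 1) (Fin 1) (MonoidAlgebra R (X × Z m)))ˣ,
        u.val 0 0 ∈ {a : MonoidAlgebra R (X × Z m) | ∃ g, a = MonoidAlgebra.single g 1} ∧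
          c = cl 1 u}) =
      ({c : D1.Grp (D1.RelA (MonoidAlgebra R (X × Z m))) |
      ∃ (n : ℕ) (u : (Matrix (Fin n) (Fin n) (MonoidAlgebra R (X × Z m)))ˣ),
        (∀ i j g, (u.val i j).coeff g ≠ 0 → g.1 = 1) ∧ c = D1.cls _ ⟨n, u⟩} ∪
      {c | ∃ (u : (Matrix (Fin 1) (Fin 1) (MonoidAlgebra R (X × Z m)))ˣ) (g : X × Z m),
        u.val 0 0 = MonoidAlgebra.single g 1 ∧ c = D1.cls _ ⟨1, u⟩}) := by
    congr 1
    ext c
    constructor
    · rintro ⟨u, ⟨g, hg⟩, hc⟩
      exact ⟨u, g, hg, hc⟩
    · rintro ⟨u, g, hg, hc⟩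
      exact ⟨u, ⟨g, hg⟩, hc⟩
  show AddSubgroup.closure _ = ⊤ ↔ AddSubgroup.closure _ = ⊤
  rw [e]
  rfl

/-- Let `G` act on a tree, let all edges be translates of the edge `{v, w}`, and let no element
exchange `v` and `w`. Let `WhTrivial R` hold for `G_v`, `G_w` and let `K0Trivial R` hold for
`G_v ∩ G_w`. Suppose (`hline`) that for all vertices `x ≠ y` and all `g ∈ G` with `g x ≠ x` such that `y` and
`g x` lie on the path from `x` to `g y` and `g⁻¹ K g ⊆ K`, where `K = G_x ∩ G_y`, the property
`WhTrivial R` holds for the group generated by `K` and `g`, or the rings `R[K × ℤ^m]` are regular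
coherent; and (`hchain`) that for all `m` every strictly decreasing sequence of the stabilizers of
paths `[x, y 0] ⊂ [x, y 1] ⊂ ...` contains a `K` with regular coherent `R[K × ℤ^m]`. Then `WhTrivial R` and
`K0Trivial R` hold for `G`. -/
theorem result (R G V : Type) [Ring R] [Group G] [MulAction G V] (T : SimpleGraph V)
    (hT : T.IsTree) (hG : ∀ (g : G) (x y : V), T.Adj x y → T.Adj (g • x) (g • y)) (v w : V)
    (hvw : T.Adj v w) (hinv : ∀ g : G, ¬ (g • v = w ∧ g • w = v))
    (hone : ∀ x y : V, T.Adj x y → ∃ g : G, (g • v = x ∧ g • w = y) ∨ (g • v = y ∧ g • w = x))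
    (hv : WhTrivial R (MulAction.stabilizer G v)) (hw : WhTrivial R (MulAction.stabilizer G w))
    (he : K0Trivial R (Fix G v w))
    (hline : ∀ (x y : V) (g : G), x ≠ y → g • x ≠ x →
      T.dist x (g • y) = T.dist x y + T.dist y (g • y) →
      T.dist x (g • y) = T.dist x (g • x) + T.dist (g • x) (g • y) →
      (∀ h ∈ Fix G x y, g⁻¹ * h * g ∈ Fix G x y) →
      WhTrivial R (Gen (Fix G x y) g) ∨
        ∀ m : ℕ, Regular R (Fix G x y) m)
    (hchain : ∀ (m : ℕ) (x : V) (y : ℕ → V),
      (∀ i, T.dist x (y (i + 1)) = T.dist x (y i) + T.dist (y i) (y (i + 1))) →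
      (∀ i, Fix G x (y (i + 1)) < Fix G x (y i)) →
      ∃ i, Regular R (Fix G x (y i)) m) :
    WhTrivial R G ∧ K0Trivial R G :=
  (KN.main_lines R G V T v w ⟨hT, hG, hvw, hinv, hone⟩ ((wh_iff _ _).1 hv) ((wh_iff _ _).1 hw) he
    (fun x y g h1 h2 h3 h4 h5 => (hline x y g h1 h2 h3 h4 h5).imp (wh_iff _ _).1
      fun h m => regCoh_of _ (h m))
    (fun m x y h1 h2 => (hchain m x y h1 h2).imp fun _ h => regCoh_of _ h)).imp
    (wh_iff _ _).2 id

end Pool.Agent.Results.MP_b6f35e_al.TreeActions
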